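import Pool.Agent.helper81.CX.Spec2

/-!
# Row SMT: small correlations of even maps
-/

set_option autoImplicit false

open MeasureTheory Set Filter Topology
open scoped ENNReal
open Pool.Agent.helper81.CW

namespace Pool.Agent.CX

/-- the density of `gm n` -/
noncomputable def SMT_r (n : ℕ) (x : E n) : ℝ :=
  Real.exp (-‖x‖ ^ 2 / 2) / Real.sqrt (2 * Real.pi) ^ n

theorem SMT_r_nonneg (n : ℕ) (x : E n) : 0 ≤ SMT_r n x := by
  unfold SMT_r
  positivity

theorem SMT_int (n : ℕ) (g : E n → ℝ) : ∫ x, g x ∂(gm n) = ∫ x, SMT_r n x * g x := by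
  unfold gm
  rw [integral_withDensity_eq_integral_toReal_smul (by fun_prop) (by simp)]
  refine integral_congr_ae (Eventually.of_forall fun x => ?_)
  show (ENNReal.ofReal (SMT_r n x)).toReal • g x = _
  rw [ENNReal.toReal_ofReal (SMT_r_nonneg n x), smul_eq_mul]

/-- translation -/
theorem SMT_tr (n : ℕ) (g : E n → ℝ) (v : E n) :
    ∫ y, g (v + y) ∂(gm n) = ∫ y, g y * Real.exp (inner ℝ v y - ‖v‖ ^ 2 / 2) ∂(gm n) := by
  rw [SMT_int, SMT_int]
  have h := integral_add_left_eq_self (μ := (volume : Measure (E n)))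
    (fun y => SMT_r n (y - v) * g y) v
  simp only [add_sub_cancel_left] at h
  rw [h]
  refine integral_congr_ae (Eventually.of_forall fun y => ?_)
  show SMT_r n (y - v) * g y = SMT_r n y * (g y * Real.exp (inner ℝ v y - ‖v‖ ^ 2 / 2))
  have h1 : SMT_r n (y - v) = SMT_r n y * Real.exp (inner ℝ v y - ‖v‖ ^ 2 / 2) := by
    unfold SMT_r
    rw [div_mul_eq_mul_div, ← Real.exp_add, norm_sub_sq_real, real_inner_comm]
    congr 2
    ring
  rw [h1]
  ring

theorem SMT_one (hG1 : G1_stmt) (n : ℕ) (v : E n) :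
    ∫ y, Real.exp (inner ℝ v y - ‖v‖ ^ 2 / 2) ∂(gm n) = 1 := by
  have := (hG1 n).1
  have h := SMT_tr n (fun _ => 1) v
  simp only [one_mul, integral_const, smul_eq_mul, mul_one, probReal_univ] at h
  exact h.symm

theorem SMT_i1 (hG1 : G1_stmt) (n : ℕ) (v : E n) :
    Integrable (fun y : E n => Real.exp (inner ℝ v y - ‖v‖ ^ 2 / 2)) (gm n) :=
  integrable_of_integral_eq_one (SMT_one hG1 n v)

theorem SMT_i2 (hG1 : G1_stmt) (n : ℕ) (v : E n) :
    Integrable (fun y : E n => Real.exp (inner ℝ v y)) (gm n) ∧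
      ∫ y, Real.exp (inner ℝ v y) ∂(gm n) = Real.exp (‖v‖ ^ 2 / 2) := by
  have h0 : (fun y : E n => Real.exp (inner ℝ v y)) =
      fun y : E n => Real.exp (‖v‖ ^ 2 / 2) * Real.exp (inner ℝ v y - ‖v‖ ^ 2 / 2) := by
    funext y
    rw [← Real.exp_add]
    congr 1
    ring
  rw [h0]
  refine ⟨(SMT_i1 hG1 n v).const_mul _, ?_⟩
  rw [integral_const_mul, SMT_one hG1 n v, mul_one]

theorem SMT_neg (hG1 : G1_stmt) (n : ℕ) (g : E n → ℝ) :
    ∫ y, g (-y) ∂(gm n) = ∫ y, g y ∂(gm n) := by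
  have hm : MeasurableEmbedding (fun x : E n => -x) := (Homeomorph.neg (E n)).measurableEmbedding
  have h := hm.integral_map (μ := gm n) g
  rw [(hG1 n).2] at h
  exact h.symm

theorem SMT_sc (hG1 : G1_stmt) (n : ℕ) : Integrable (fun x : E n => Real.exp (‖x‖ ^ 2 / 6)) (gm n) := by
  have := (hG1 n).1
  by_contra hc
  have h0 := integral_undef hc
  rw [SMT_int] at h0
  have hR : (0 : ℝ) < Real.sqrt (2 / 3) := Real.sqrt_pos.mpr (by norm_num)
  have h1 : (fun x : E n => SMT_r n x * Real.exp (‖x‖ ^ 2 / 6)) =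
      fun x : E n => SMT_r n (Real.sqrt (2 / 3) • x) := by
    funext x
    unfold SMT_r
    rw [div_mul_eq_mul_div, ← Real.exp_add, norm_smul, Real.norm_of_nonneg hR.le, mul_pow,
      Real.sq_sqrt (by norm_num)]
    congr 2
    ring
  rw [h1, Measure.integral_comp_smul] at h0
  have h2 : ∫ x, SMT_r n x = 1 := by
    have h3 := SMT_int n (fun _ => 1)
    simp only [integral_const, smul_eq_mul, mul_one, probReal_univ] at h3
    exact h3.symm
  rw [h2, smul_eq_mul, mul_one, abs_eq_zero, inv_eq_zero] at h0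
  exact (pow_pos hR _).ne' h0

theorem SMT_c1 (a B : ℝ) (hB : 0 ≤ B) :
    |Real.exp (a - B) + Real.exp (-a - B) - 2| ≤ Real.exp a + Real.exp (-a) - 2 + 2 * B := by
  have h1 : Real.exp (a - B) = Real.exp a * Real.exp (-B) := by rw [← Real.exp_add]; rfl
  have h2 : Real.exp (-a - B) = Real.exp (-a) * Real.exp (-B) := by rw [← Real.exp_add]; rfl
  rw [h1, h2]
  have h3 : Real.exp (-B) ≤ 1 := Real.exp_le_one_iff.mpr (by linarith)
  have h4 : 0 < Real.exp (-B) := Real.exp_pos _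
  have h5 : 1 - B ≤ Real.exp (-B) := by
    have := Real.add_one_le_exp (-B)
    linarith
  have h6 : 2 ≤ Real.exp a + Real.exp (-a) := by
    have h7 : Real.exp a * Real.exp (-a) = 1 := by rw [← Real.exp_add]; simp
    nlinarith [Real.exp_pos a, Real.exp_pos (-a), sq_nonneg (Real.exp a - Real.exp (-a))]
  rw [abs_le]
  constructor <;> nlinarith

theorem SMT_c2 (θ w : ℝ) (h0 : 0 ≤ θ) (h1 : θ ≤ 1) :
    Real.exp (θ * w) - 1 ≤ θ * (Real.exp w - 1) := by
  have h := convexOn_exp.2 (Set.mem_univ w) (Set.mem_univ 0) h0 (sub_nonneg.mpr h1) (by ring)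
  simp only [smul_eq_mul, mul_zero, add_zero, Real.exp_zero, mul_one] at h
  linarith

theorem SMT_A (hG1 : G1_stmt) (n : ℕ) (f : E n → E n) (hf : EV f) (x v : E n) :
    |∫ y, inner ℝ (f x) (f (v + y)) ∂(gm n)| ≤ 8 * (Real.exp (‖v‖ ^ 2 / 2) - 1) := by
  have := (hG1 n).1
  have hFm : Measurable fun y : E n => (inner ℝ (f x) (f y) : ℝ) :=
    measurable_const.inner hf.bm.1
  have hF4 : ∀ y, |(inner ℝ (f x) (f y) : ℝ)| ≤ 4 := by
    intro y
    refine (abs_real_inner_le_norm _ _).trans ?_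
    have h1 := hf.bm.2 x
    have h2 := hf.bm.2 y
    nlinarith [norm_nonneg (f x), norm_nonneg (f y)]
  have hfi : Integrable f (gm n) :=
    Integrable.of_bound hf.bm.1.aestronglyMeasurable 2 (Eventually.of_forall hf.bm.2)
  have hF0 : ∫ y, (inner ℝ (f x) (f y) : ℝ) ∂(gm n) = 0 := by
    rw [integral_inner hfi, hf.mean, inner_zero_right]
  have hFi : Integrable (fun y : E n => (inner ℝ (f x) (f y) : ℝ)) (gm n) := hfi.const_inner (f x)
  have e1 : ∫ y, (inner ℝ (f x) (f (v + y)) : ℝ) ∂(gm n) =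
      ∫ y, inner ℝ (f x) (f y) * Real.exp (inner ℝ v y - ‖v‖ ^ 2 / 2) ∂(gm n) :=
    SMT_tr n (fun y => inner ℝ (f x) (f y)) v
  have e2 : ∫ y, (inner ℝ (f x) (f (v + y)) : ℝ) ∂(gm n) =
      ∫ y, inner ℝ (f x) (f y) * Real.exp (-inner ℝ v y - ‖v‖ ^ 2 / 2) ∂(gm n) := by
    rw [e1, ← SMT_neg hG1]
    refine integral_congr_ae (Eventually.of_forall fun y => ?_)
    show inner ℝ (f x) (f (-y)) * Real.exp (inner ℝ v (-y) - ‖v‖ ^ 2 / 2) = _
    rw [hf.even, inner_neg_right]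
  have i1 : Integrable (fun y : E n => (inner ℝ (f x) (f y) : ℝ) *
      Real.exp (inner ℝ v y - ‖v‖ ^ 2 / 2)) (gm n) := by
    refine ((SMT_i1 hG1 n v).const_mul 4).mono' ?_ (Eventually.of_forall fun y => ?_)
    · exact (hFm.mul (by fun_prop)).aestronglyMeasurable
    · rw [norm_mul, Real.norm_eq_abs, Real.norm_of_nonneg (Real.exp_pos _).le]
      exact mul_le_mul_of_nonneg_right (hF4 y) (Real.exp_pos _).le
  have i2 : Integrable (fun y : E n => (inner ℝ (f x) (f y) : ℝ) *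
      Real.exp (-inner ℝ v y - ‖v‖ ^ 2 / 2)) (gm n) := by
    have h1 := SMT_i1 hG1 n (-v)
    simp only [inner_neg_left, norm_neg] at h1
    refine (h1.const_mul 4).mono' ?_ (Eventually.of_forall fun y => ?_)
    · exact (hFm.mul (by fun_prop)).aestronglyMeasurable
    · rw [norm_mul, Real.norm_eq_abs, Real.norm_of_nonneg (Real.exp_pos _).le]
      exact mul_le_mul_of_nonneg_right (hF4 y) (Real.exp_pos _).le
  have e3 : 2 * ∫ y, (inner ℝ (f x) (f (v + y)) : ℝ) ∂(gm n) =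
      ∫ y, inner ℝ (f x) (f y) * (Real.exp (inner ℝ v y - ‖v‖ ^ 2 / 2) +
        Real.exp (-inner ℝ v y - ‖v‖ ^ 2 / 2) - 2) ∂(gm n) := by
    have h1 : ∫ y, (inner ℝ (f x) (f y) * (Real.exp (inner ℝ v y - ‖v‖ ^ 2 / 2) +
        Real.exp (-inner ℝ v y - ‖v‖ ^ 2 / 2) - 2) : ℝ) ∂(gm n) =
        ∫ y, ((inner ℝ (f x) (f y) * Real.exp (inner ℝ v y - ‖v‖ ^ 2 / 2) +
          inner ℝ (f x) (f y) * Real.exp (-inner ℝ v y - ‖v‖ ^ 2 / 2)) -
            2 * inner ℝ (f x) (f y) : ℝ) ∂(gm n) := by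
      refine integral_congr_ae (Eventually.of_forall fun y => ?_)
      show _ = _
      ring
    have i3 : Integrable (fun y : E n => (inner ℝ (f x) (f y) : ℝ) *
        Real.exp (inner ℝ v y - ‖v‖ ^ 2 / 2) + inner ℝ (f x) (f y) *
          Real.exp (-inner ℝ v y - ‖v‖ ^ 2 / 2)) (gm n) := i1.add i2
    rw [h1, integral_sub i3 (hFi.const_mul 2), integral_add i1 i2, ← e1, ← e2,
      integral_const_mul, hF0]
    ring
  obtain ⟨j1, k1⟩ := SMT_i2 hG1 n v
  obtain ⟨j2, k2⟩ := SMT_i2 hG1 n (-v)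
  simp only [inner_neg_left, norm_neg] at j2 k2
  have j3 : Integrable (fun y : E n => Real.exp (inner ℝ v y) + Real.exp (-inner ℝ v y)) (gm n) :=
    j1.add j2
  have hgi : Integrable (fun y : E n => 4 * (Real.exp (inner ℝ v y) + Real.exp (-inner ℝ v y) +
      (2 * (‖v‖ ^ 2 / 2) - 2))) (gm n) := (j3.add (integrable_const _)).const_mul 4
  have hb := norm_integral_le_of_norm_le (μ := gm n)
    (f := fun y : E n => (inner ℝ (f x) (f y) : ℝ) * (Real.exp (inner ℝ v y - ‖v‖ ^ 2 / 2) +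
        Real.exp (-inner ℝ v y - ‖v‖ ^ 2 / 2) - 2)) hgi (Eventually.of_forall fun y => by
      rw [norm_mul, Real.norm_eq_abs, Real.norm_eq_abs]
      refine (mul_le_mul (hF4 y) (SMT_c1 (inner ℝ v y) (‖v‖ ^ 2 / 2) (by positivity))
        (abs_nonneg _) (by norm_num)).trans (le_of_eq ?_)
      ring)
  rw [← e3, integral_const_mul, integral_add j3 (integrable_const _),
    integral_add j1 j2, k1, k2, integral_const, probReal_univ, one_smul, Real.norm_eq_abs, abs_mul,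
    abs_of_pos (by norm_num : (0 : ℝ) < 2)] at hb
  have h7 := Real.add_one_le_exp (‖v‖ ^ 2 / 2)
  linarith

theorem SMT (hG1 : G1_stmt) : SMT_stmt := by
  intro n f hf
  refine ⟨32 * ∫ x : E n, Real.exp (‖x‖ ^ 2 / 6) ∂(gm n), ?_⟩
  intro t ht0 ht1
  have ht2 : 0 < 1 - t ^ 2 := by nlinarith
  have ht3 : 0 < Real.sqrt (1 - t ^ 2) := Real.sqrt_pos.mpr ht2
  have hpt : ∀ x : E n, ‖∫ y, (inner ℝ (f x) (f (mix t x y)) : ℝ) ∂(gm n)‖ ≤
      32 * t ^ 2 * Real.exp (‖x‖ ^ 2 / 6) := by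
    intro x
    have h1 : ∀ y, f (mix t x y) = f ((t / Real.sqrt (1 - t ^ 2)) • x + y) := by
      intro y
      rw [← hf.hom ((t / Real.sqrt (1 - t ^ 2)) • x + y) _ ht3]
      congr 1
      unfold mix
      rw [smul_add, smul_smul, mul_div_cancel₀ _ ht3.ne']
    simp only [h1]
    rw [Real.norm_eq_abs]
    refine (SMT_A hG1 n f hf x ((t / Real.sqrt (1 - t ^ 2)) • x)).trans ?_
    have h2 : ‖(t / Real.sqrt (1 - t ^ 2)) • x‖ ^ 2 / 2 ≤ (4 * t ^ 2) * (‖x‖ ^ 2 / 6) := by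
      rw [norm_smul, mul_pow, Real.norm_eq_abs, sq_abs, div_pow, Real.sq_sqrt ht2.le]
      have h3 : t ^ 2 / (1 - t ^ 2) ≤ 4 / 3 * t ^ 2 := by
        rw [div_le_iff₀ ht2]
        nlinarith [sq_nonneg t, mul_nonneg (sq_nonneg t) (by nlinarith : 0 ≤ 1 / 4 - t ^ 2)]
      nlinarith [mul_le_mul_of_nonneg_right h3 (sq_nonneg ‖x‖)]
    have h4 := Real.exp_le_exp.mpr h2
    have h5 := SMT_c2 (4 * t ^ 2) (‖x‖ ^ 2 / 6) (by positivity) (by nlinarith)
    nlinarith [sq_nonneg t]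
  have hb := norm_integral_le_of_norm_le (μ := gm n)
    (f := fun x : E n => ∫ y, (inner ℝ (f x) (f (mix t x y)) : ℝ) ∂(gm n))
    ((SMT_sc hG1 n).const_mul (32 * t ^ 2)) (Eventually.of_forall hpt)
  rw [integral_const_mul] at hb
  refine (le_abs_self _).trans (hb.trans (le_of_eq ?_))
  ring

end Pool.Agent.CX
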